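import Mathlib
import Pool.Agent.Helper17.Proc
import Pool.Agent.Helper23.SP.Defs

set_option autoImplicit false

/-!
# Project SP, piece SP-A: the reading lemmas
-/

namespace Pool.Agent.Helper17.SP

open Finset
open Pool.Agent.Helper23.SP
open Pool.Agent.Helper17

lemma rst_eq {V X : Type} (nx : ℕ → V → X → V) (v0 : V) (ω : X) (i : ℕ) :
    rst nx v0 ω i = Proc.sta nx ω i 0 v0 := by
  induction i with
  | zero => rfl
  | succ i ih =>
    rw [Proc.sta_succ, Nat.zero_add, ← ih]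
    rfl

lemma rd_eq {El V X : Type} [DecidableEq El] (S : ℕ → V → Finset El) (nx : ℕ → V → X → V)
    (v0 : V) (ω : X) (n : ℕ) : rd S nx v0 ω n = Proc.rd S nx ω n 0 v0 := by
  ext e
  rw [Proc.mem_rd]
  unfold rd
  simp only [mem_biUnion, mem_range, rst_eq, Nat.zero_add]

open Classical in
/-- SP-A1. -/
theorem read_coll {El G V C : Type} [Fintype El] [DecidableEq El] [Fintype G] [DecidableEq G]
    [Fintype V] [DecidableEq V] [DecidableEq C] {b U : ℕ} (c0 : El → C) (key : El → Fin b → G)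
    (hkey : ∀ e y e' y', key e y = key e' y' → c0 e = c0 e' ∧ y = y')
    (S : ℕ → V → Finset El) (nx : ℕ → V → ((El → Fin b) × (G → Fin U)) → V)
    (hnx : ∀ t v (ω ω' : (El → Fin b) × (G → Fin U)), (∀ e ∈ S t v, ω.1 e = ω'.1 e ∧
      ω.2 (key e (ω.1 e)) = ω'.2 (key e (ω'.1 e))) → nx t v ω = nx t v ω')
    (v0 : V) (n A B x0 : ℕ) (h : 5 * A * (B * U + A * b) ≤ x0 * b * U) :
    (univ.filter (fun ω : (El → Fin b) × (G → Fin U) =>
      (rd S nx v0 ω n).card ≤ A ∧
      (∀ c, ((rd S nx v0 ω n).filter (fun e => c0 e = c)).card ≤ B) ∧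
      x0 + ((rd S nx v0 ω n).image (fun e => ω.2 (key e (ω.1 e)))).card ≤
        (rd S nx v0 ω n).card)).card * 2 ^ x0 ≤
      Fintype.card ((El → Fin b) × (G → Fin U)) := by
  rcases isEmpty_or_nonempty El with hE | ⟨⟨e0⟩⟩
  · -- no elements
    rcases Nat.eq_zero_or_pos x0 with hx | hx
    · rw [hx, pow_zero, mul_one]
      exact Finset.card_le_univ _
    · have h1 : (univ.filter (fun ω : (El → Fin b) × (G → Fin U) =>
      (rd S nx v0 ω n).card ≤ A ∧
      (∀ c, ((rd S nx v0 ω n).filter (fun e => c0 e = c)).card ≤ B) ∧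
      x0 + ((rd S nx v0 ω n).image (fun e => ω.2 (key e (ω.1 e)))).card ≤
        (rd S nx v0 ω n).card)) = ∅ := by
        rw [Finset.filter_eq_empty_iff]
        rintro ω _ ⟨_, _, h3⟩
        have h4 : rd S nx v0 ω n = ∅ := Finset.eq_empty_of_isEmpty _
        rw [h4] at h3
        simp at h3
        omega
      rw [h1]; simp
  rcases isEmpty_or_nonempty ((El → Fin b) × (G → Fin U)) with hX | ⟨⟨ω0⟩⟩
  · rw [Finset.eq_empty_of_isEmpty (univ.filter _)]; simp
  have : Nonempty (Fin b) := ⟨ω0.1 e0⟩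
  have : Nonempty (Fin U) := ⟨ω0.2 (key e0 (ω0.1 e0))⟩
  have hnx' : ∀ t v (x x' : (El → Fin b) × (G → Fin U)), (∀ e ∈ S t v, x.1 e = x'.1 e ∧
      x.2 (key e (x.1 e)) = x'.2 (key e (x.1 e))) → nx t v x = nx t v x' := by
    intro t v x x' hx
    apply hnx
    intro e he
    obtain ⟨h1, h2⟩ := hx e he
    exact ⟨h1, by rw [h2, h1]⟩
  have h1 := Proc.coll (S := S) (key := key) (nx := nx) (c0 := c0) hkey n 0 v0 hnx'
    (A := A) (B := B) (x0 := x0) (by rw [Fintype.card_fin, Fintype.card_fin]; exact h)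
  have e1 : Fintype.card ((i : El ⊕ G) → Proc.VV El G (Fin b) (Fin U) i) =
      Fintype.card ((El → Fin b) × (G → Fin U)) := Fintype.card_congr Proc.eqX
  rw [e1] at h1
  refine le_trans (Nat.mul_le_mul_right _ ?_) h1
  apply Finset.card_le_card_of_injOn Proc.ofX
  · intro x hx
    rw [Finset.mem_coe, mem_filter] at hx ⊢
    refine ⟨mem_univ _, ?_⟩
    rw [Proc.toX_ofX]
    have h2 := hx.2
    rw [rd_eq] at h2
    refine ⟨h2.1, ?_, ?_⟩
    · intro c
      have := h2.2.1 c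
      convert this using 3
    · convert h2.2.2 using 3
  · intro x _ x' _ hxx
    have := congrArg Proc.toX hxx
    simpa using this

open Classical in
/-- SP-A2. -/
theorem read_cell {El G V C : Type} [Fintype El] [DecidableEq El] [Fintype G] [DecidableEq G]
    [Fintype V] [DecidableEq V] [DecidableEq C] {b U : ℕ} (c0 : El → C) (key : El → Fin b → G)
    (hkey : ∀ e y e' y', key e y = key e' y' → c0 e = c0 e' ∧ y = y')
    (S : ℕ → V → Finset El) (nx : ℕ → V → ((El → Fin b) × (G → Fin U)) → V)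
    (hnx : ∀ t v (ω ω' : (El → Fin b) × (G → Fin U)), (∀ e ∈ S t v, ω.1 e = ω'.1 e ∧
      ω.2 (key e (ω.1 e)) = ω'.2 (key e (ω'.1 e))) → nx t v ω = nx t v ω')
    (v0 : V) (n B x0 : ℕ) (h : 5 * B ≤ x0 * b) (c : C) (d : Fin b) :
    (univ.filter (fun ω : (El → Fin b) × (G → Fin U) =>
      ((rd S nx v0 ω n).filter (fun e => c0 e = c)).card ≤ B ∧
      x0 ≤ ((rd S nx v0 ω n).filter (fun e => c0 e = c ∧ ω.1 e = d)).card)).card * 2 ^ x0 ≤
      Fintype.card ((El → Fin b) × (G → Fin U)) := by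
  rcases isEmpty_or_nonempty El with hE | ⟨⟨e0⟩⟩
  · -- no elements
    rcases Nat.eq_zero_or_pos x0 with hx | hx
    · rw [hx, pow_zero, mul_one]
      exact Finset.card_le_univ _
    · have h1 : (univ.filter (fun ω : (El → Fin b) × (G → Fin U) =>
      ((rd S nx v0 ω n).filter (fun e => c0 e = c)).card ≤ B ∧
      x0 ≤ ((rd S nx v0 ω n).filter (fun e => c0 e = c ∧ ω.1 e = d)).card)) = ∅ := by
        rw [Finset.filter_eq_empty_iff]
        rintro ω _ ⟨_, h3⟩
        have h4 : rd S nx v0 ω n = ∅ := Finset.eq_empty_of_isEmpty _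
        rw [h4] at h3
        simp at h3
        omega
      rw [h1]; simp
  rcases isEmpty_or_nonempty ((El → Fin b) × (G → Fin U)) with hX | ⟨⟨ω0⟩⟩
  · rw [Finset.eq_empty_of_isEmpty (univ.filter _)]; simp
  have : Nonempty (Fin b) := ⟨ω0.1 e0⟩
  have : Nonempty (Fin U) := ⟨ω0.2 (key e0 (ω0.1 e0))⟩
  have hnx' : ∀ t v (x x' : (El → Fin b) × (G → Fin U)), (∀ e ∈ S t v, x.1 e = x'.1 e ∧
      x.2 (key e (x.1 e)) = x'.2 (key e (x.1 e))) → nx t v x = nx t v x' := by
    intro t v x x' hx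
    apply hnx
    intro e he
    obtain ⟨h1, h2⟩ := hx e he
    exact ⟨h1, by rw [h2, h1]⟩
  have h1 := Proc.cell (S := S) (key := key) (nx := nx) (c0 := c0) n 0 v0 hnx'
    (B := B) (x0 := x0) (by rw [Fintype.card_fin]; exact h) c d
  have e1 : Fintype.card ((i : El ⊕ G) → Proc.VV El G (Fin b) (Fin U) i) =
      Fintype.card ((El → Fin b) × (G → Fin U)) := Fintype.card_congr Proc.eqX
  rw [e1] at h1
  refine le_trans (Nat.mul_le_mul_right _ ?_) h1
  apply Finset.card_le_card_of_injOn Proc.ofX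
  · intro x hx
    rw [Finset.mem_coe, mem_filter] at hx ⊢
    refine ⟨mem_univ _, ?_⟩
    rw [Proc.toX_ofX]
    have h2 := hx.2
    rw [rd_eq] at h2
    refine ⟨?_, ?_⟩
    · convert h2.1 using 3
    · convert h2.2 using 3
  · intro x _ x' _ hxx
    have := congrArg Proc.toX hxx
    simpa using this

end Pool.Agent.Helper17.SP
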